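import Pool.Agent.LE.StmtsQH

set_option autoImplicit false

open MeasureTheory ProbabilityTheory

open scoped ENNReal BigOperators NNReal Matrix ComplexConjugate

noncomputable section

namespace Pool.Agent.LE.QF.H49

open Pool.Agent.Anderson hiding box mem_box card_box
open Pool.Agent.Loc Pool.Agent.Mob Pool.Agent.Helper54.Bal
  Pool.Agent.Helper96.EXP Pool.Agent.BED
open Pool.Agent.LE.MN Pool.Agent.LE.CL Pool.Agent.LE.IR Pool.Agent.LE.QD

variable {d M : ℕ} [NeZero M]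

/-- the resolvent depends on the difference -/
theorem rs_diff (hral : RalStmt) {z : ℂ} (hz0 : 0 < z.im) {x y x' y' : Tor d M}
    (h : x - y = x' - y') : rs (0 : Tor d M → ℝ) z x y = rs (0 : Tor d M → ℝ) z x' y' := by
  obtain ⟨-, -, -, -, -, -, -, -, -, -, h11, -⟩ := hral d M 0 z hz0
  rw [h11, h11, h]

theorem rs_neg (hral : RalStmt) {z : ℂ} (hz0 : 0 < z.im) (x : Tor d M) :
    rs (0 : Tor d M → ℝ) z 0 (-x) = rs (0 : Tor d M → ℝ) z 0 x := by
  obtain ⟨-, h2, -⟩ := hral d M 0 z hz0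
  rw [rs_diff hral hz0 (x' := x) (y' := 0) (by rw [sub_neg_eq_add, zero_add, sub_zero]), h2]

/-- the transform of the resolvent -/
theorem ft_rs (hral : RalStmt) (hftb : FtbStmt) {z : ℂ} (hz0 : 0 < z.im) (p : Tor d M) :
    ft (fun x => rs (0 : Tor d M → ℝ) z 0 x) p = ((es p : ℂ) - z)⁻¹ := by
  obtain ⟨-, -, -, -, -, -, h7, h8, -⟩ := hftb d M
  obtain ⟨-, -, -, -, -, -, -, -, -, -, h11, -⟩ := hral d M 0 z hz0
  obtain ⟨f, hf⟩ := h8 fun p => ((es p : ℂ) - z)⁻¹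
  have h1 : (fun x => rs (0 : Tor d M → ℝ) z 0 x) = f := by
    funext x
    rw [← rs_neg hral hz0 x, h11, h7 f x]
    congr 1
    apply Finset.sum_congr rfl
    intro q _
    rw [hf, zero_sub, neg_neg, div_eq_mul_inv]
  rw [h1, hf]

/-- the transform of `f ec p` -/
theorem ft_mul_ec (hftb : FtbStmt) (f : Tor d M → ℂ) (p q : Tor d M) :
    ft (fun x => f x * ec p x) q = ft f (q - p) := by
  obtain ⟨-, -, h3, h4, -⟩ := hftb d M
  unfold ft
  apply Finset.sum_congr rfl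
  intro y _
  rw [sub_eq_add_neg, h3, map_mul, (h4 p y).1, Complex.conj_conj]
  ring

theorem ft_conj (hftb : FtbStmt) (f : Tor d M → ℂ) (q : Tor d M) :
    ft (fun x => conj (f x)) q = conj (ft f (-q)) := by
  obtain ⟨-, -, h3, h4, -⟩ := hftb d M
  unfold ft
  rw [map_sum]
  apply Finset.sum_congr rfl
  intro y _
  rw [map_mul, (h4 q y).1, Complex.conj_conj]

theorem ec_zero (p : Tor d M) : ec (0 : Tor d M) p = 1 := by
  unfold ec
  apply Finset.prod_eq_one
  intro i _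
  rw [Pi.zero_apply, zero_mul, AddChar.map_zero_eq_one]

/-- `∑ |g|² ec p` -/
theorem sum_kk (hral : RalStmt) (hftb : FtbStmt) {z : ℂ} (hz0 : 0 < z.im) (p : Tor d M) :
    ∑ x : Tor d M, ((kk z x : ℝ) : ℂ) * ec p x = kh z p := by
  obtain ⟨h1, h2, h3, h4, h5, -⟩ := hftb d M
  -- `|g|² ec p = conj (g ec (-p)) g`
  have e1 : ∑ x : Tor d M, ((kk z x : ℝ) : ℂ) * ec p x =
      ∑ x, conj (rs (0 : Tor d M → ℝ) z 0 x * ec (-p) x) * rs (0 : Tor d M → ℝ) z 0 x := by
    apply Finset.sum_congr rfl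
    intro x _
    have e2 : ((kk z x : ℝ) : ℂ) = conj (rs (0 : Tor d M → ℝ) z 0 x) *
        rs (0 : Tor d M → ℝ) z 0 x := by
      unfold kk
      rw [Complex.conj_mul', Complex.ofReal_pow]
    rw [e2, map_mul, (h4 p x).1, Complex.conj_conj]
    ring
  rw [e1, h5 (fun x => rs (0 : Tor d M → ℝ) z 0 x) (fun x => rs (0 : Tor d M → ℝ) z 0 x * ec (-p) x)]
  unfold kh
  congr 1
  apply Finset.sum_congr rfl
  intro k _
  rw [ft_mul_ec hftb (fun x => rs (0 : Tor d M → ℝ) z 0 x), sub_neg_eq_add,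
    ft_rs hral hftb hz0, ft_rs hral hftb hz0, mul_comm]

theorem sum_bb (hral : RalStmt) (hftb : FtbStmt) {z : ℂ} (hz0 : 0 < z.im) (p : Tor d M) :
    ∑ x : Tor d M, rs (0 : Tor d M → ℝ) z 0 x ^ 2 * ec p x = bh z p := by
  obtain ⟨h1, h2, h3, h4, h5, -⟩ := hftb d M
  have e0 : ∑ x : Tor d M, rs (0 : Tor d M → ℝ) z 0 x ^ 2 * ec p x =
      ∑ x : Tor d M, rs (0 : Tor d M → ℝ) z 0 x ^ 2 * ec (-p) x := by
    rw [← Equiv.sum_comp (Equiv.neg (Tor d M))]
    apply Finset.sum_congr rfl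
    intro x _
    rw [Equiv.neg_apply, rs_neg hral hz0, (h4 p x).1, (h4 p x).2]
  have e1 : ∑ x : Tor d M, rs (0 : Tor d M → ℝ) z 0 x ^ 2 * ec (-p) x =
      ∑ x, conj (conj (rs (0 : Tor d M → ℝ) z 0 x) * ec p x) * rs (0 : Tor d M → ℝ) z 0 x := by
    apply Finset.sum_congr rfl
    intro x _
    rw [map_mul, Complex.conj_conj, (h4 p x).1]
    ring
  rw [e0, e1, h5 (fun x => rs (0 : Tor d M → ℝ) z 0 x)
    (fun x => conj (rs (0 : Tor d M → ℝ) z 0 x) * ec p x)]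
  unfold bh
  congr 1
  apply Finset.sum_congr rfl
  intro k _
  rw [ft_mul_ec hftb (fun x => conj (rs (0 : Tor d M → ℝ) z 0 x)),
    ft_conj hftb (fun x => rs (0 : Tor d M → ℝ) z 0 x), neg_sub, ft_rs hral hftb hz0,
    ft_rs hral hftb hz0, Complex.conj_conj, mul_comm]

/-- the transform of `B u` -/
theorem ft_BB (hral : RalStmt) (hftb : FtbStmt) {z : ℂ} (hz0 : 0 < z.im) (u : Tor d M → ℂ)
    (p : Tor d M) :
    ft (BB (rs (0 : Tor d M → ℝ) z) *ᵥ u) p = bh z p * ft u p := by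
  obtain ⟨h1, h2, h3, h4, h5, -⟩ := hftb d M
  have e0 : ∀ y : Tor d M, ∑ x, conj (ec p x) * BB (rs (0 : Tor d M → ℝ) z) x y =
      conj (ec p y) * bh z p := by
    intro y
    rw [← sum_bb hral hftb hz0 p, Finset.mul_sum,
      ← Equiv.sum_comp (Equiv.subLeft y)]
    apply Finset.sum_congr rfl
    intro x _
    rw [Equiv.subLeft_apply]
    have e1 : BB (rs (0 : Tor d M → ℝ) z) (y - x) y = rs (0 : Tor d M → ℝ) z 0 x ^ 2 := by
      unfold BB
      rw [rs_diff hral hz0 (x' := 0) (y' := x) (by abel)]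
    rw [e1, sub_eq_add_neg, h2, (h4 p x).2, map_mul, Complex.conj_conj]
    ring
  unfold ft
  simp only [Matrix.mulVec, dotProduct, Finset.mul_sum]
  rw [Finset.sum_comm]
  apply Finset.sum_congr rfl
  intro y _
  have e2 : ∑ x, conj (ec p x) * (BB (rs (0 : Tor d M → ℝ) z) x y * u y) =
      (∑ x, conj (ec p x) * BB (rs (0 : Tor d M → ℝ) z) x y) * u y := by
    rw [Finset.sum_mul]
    apply Finset.sum_congr rfl
    intro x _
    ring
  rw [e2, e0]
  ring

theorem kft (hral : RalStmt) (hfmu : FmuStmt) (hftb : FtbStmt) : KftStmt := by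
  intro d M _ z hz0
  have hkf : ∀ p : Tor d M, kf z p = (∑ x : Tor d M, ((kk z x : ℝ) : ℂ) * ec p x).re := by
    intro p
    rw [Complex.re_sum]
    unfold kf
    apply Finset.sum_congr rfl
    intro x _
    rw [Complex.re_ofReal_mul]
  obtain ⟨h1, h2, h3, h4, h5, h6, -⟩ := hftb d M
  have hkk : ∀ x : Tor d M, kk z (-x) = kk z x := by
    intro x
    unfold kk
    rw [rs_neg hral hz0]
  refine ⟨?_, sum_bb hral hftb hz0, ?_, ?_, ?_, ?_⟩
  · intro p
    rw [hkf, sum_kk hral hftb hz0]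
  · intro β u hβ
    unfold n2
    rw [h6, h6]
    have e1 : β ^ 2 * pm (fun p => ‖ft u p‖ ^ 2) = pm fun p => β ^ 2 * ‖ft u p‖ ^ 2 := by
      unfold pm
      rw [mul_div_assoc', Finset.mul_sum]
    rw [e1]
    unfold pm
    gcongr with p _
    show ‖ft (BB (rs (0 : Tor d M → ℝ) z) *ᵥ u) p‖ ^ 2 ≤ β ^ 2 * ‖ft u p‖ ^ 2
    rw [ft_BB hral hftb hz0, norm_mul, mul_pow]
    gcongr
    exact hβ p
  · have hM := hfmu d M (fun _ => 0) (fun _ => 0) (fun _ => rfl) (fun _ => rfl)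
    obtain ⟨-, -, -, -, -, -, -, -, -, -, h11⟩ := hM
    ext x y
    have e1 := h11 (fun x => kk z x) x y hkk
    have e2 : KK (rs (0 : Tor d M → ℝ) z) x y = kk z (x - y) := by
      rw [← hkk, neg_sub]
      unfold KK kk
      rw [rs_diff hral hz0 (x' := 0) (y' := y - x) (by abel)]
    rw [e2, e1]
    rfl
  · intro p
    unfold kf
    apply Finset.sum_congr rfl
    intro x _
    rw [(h4 p x).1, Complex.conj_re]
  · obtain ⟨-, -, -, -, h5', -⟩ := hral d M 0 z hz0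
    rw [← h5' 0]
    unfold kf
    apply Finset.sum_congr rfl
    intro x _
    rw [ec_zero, Complex.one_re, mul_one]
    rfl

end Pool.Agent.LE.QF.H49
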