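import Pool.Agent.LE.StmtsQH

set_option autoImplicit false

open MeasureTheory ProbabilityTheory

open scoped ENNReal BigOperators NNReal Matrix

noncomputable section

namespace Pool.Agent.LE.QF.H49

open Pool.Agent.Anderson hiding box mem_box card_box
open Pool.Agent.Loc Pool.Agent.Mob Pool.Agent.Helper54.Bal
  Pool.Agent.Helper96.EXP Pool.Agent.BED
open Pool.Agent.LE.MN Pool.Agent.LE.CL Pool.Agent.LE.IR Pool.Agent.LE.QD

variable {d M : ℕ} [NeZero M]

theorem low_neg (J : ℕ) (p : Tor d M) : -p ∈ low d M J ↔ p ∈ low d M J := by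
  unfold low
  simp only [Finset.mem_filter, Finset.mem_univ, true_and, Pi.neg_apply,
    ZMod.natAbs_valMinAbs_neg]

omit [NeZero M] in
theorem ds_neg (p : Tor d M) : ds (-p) = ds p := by
  unfold ds
  apply Finset.sum_congr rfl
  intro i _
  have h : ((-p) i).valMinAbs = (p i).valMinAbs ∨ ((-p) i).valMinAbs = -(p i).valMinAbs := by
    have := ZMod.natAbs_valMinAbs_neg (p i)
    exact Int.natAbs_eq_natAbs_iff.1 this
  rcases h with h | h
  · rw [h]
  · rw [h, Int.cast_neg, mul_neg, neg_div, Real.cos_neg]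

omit [NeZero M] in
theorem ds_nonneg (p : Tor d M) : 0 ≤ ds p := by
  unfold ds
  apply Finset.sum_nonneg
  intro i _
  have := Real.cos_le_one (2 * Real.pi * ((p i).valMinAbs : ℝ) / M)
  linarith

theorem sy0_neg (cs w : ℝ) (J : ℕ) (p : Tor d M) : sy0 cs w J (-p) = sy0 cs w J p := by
  unfold sy0
  simp only [low_neg, ds_neg, neg_ne_zero, ne_eq]

theorem sy0_nonneg {cs w : ℝ} (hcs : 0 ≤ cs) (hw : 0 < w) (J : ℕ) (p : Tor d M) :
    0 ≤ sy0 cs w J p := by
  unfold sy0
  split_ifs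
  · have := ds_nonneg p
    positivity
  · exact le_rfl

theorem zero_mem_low (J : ℕ) : (0 : Tor d M) ∈ low d M J := by
  unfold low
  simp only [Finset.mem_filter, Finset.mem_univ, true_and, Pi.zero_apply, ZMod.valMinAbs_zero,
    Int.natAbs_zero]
  exact fun _ => Nat.zero_le _

omit [NeZero M] in
/-- `∑ (valMinAbs)² ≥ 1` for a nonzero momentum -/
theorem one_le_sum {p : Tor d M} (hp : p ≠ 0) : 1 ≤ ∑ i, ((p i).valMinAbs : ℝ) ^ 2 := by
  obtain ⟨i, hi⟩ : ∃ i, p i ≠ 0 := by
    by_contra h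
    push Not at h
    exact hp (funext h)
  have h1 : (p i).valMinAbs ≠ 0 := fun h => hi ((ZMod.valMinAbs_eq_zero _).1 h)
  have h2 : (1 : ℝ) ≤ ((p i).valMinAbs : ℝ) ^ 2 := by
    have h3 : 1 ≤ (p i).valMinAbs ^ 2 := by
      have : 0 < (p i).valMinAbs ^ 2 := by positivity
      omega
    exact_mod_cast h3
  calc (1 : ℝ) ≤ ((p i).valMinAbs : ℝ) ^ 2 := h2
    _ ≤ ∑ i, ((p i).valMinAbs : ℝ) ^ 2 :=
      Finset.single_le_sum (f := fun i => ((p i).valMinAbs : ℝ) ^ 2)
        (fun j _ => sq_nonneg _) (Finset.mem_univ i)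

theorem qf_one (f : Tor d M → ℝ) : qf (1 : Matrix (Tor d M) (Tor d M) ℝ) f = ∑ a, f a ^ 2 := by
  unfold qf
  apply Finset.sum_congr rfl
  intro a _
  rw [Matrix.one_mulVec, sq]

theorem inm (hfmu : FmuStmt) (hlow : LowStmt) : InmStmt := by
  intro d hd
  obtain ⟨C, hC1, hC⟩ := hlow d hd
  refine ⟨C, hC1, ?_⟩
  intro M _ J cs w S Pl hJ hcs hw hw1 hS hPl
  obtain ⟨hds, hJc⟩ := hC M
  obtain ⟨hcard, hsum⟩ := hJc J hJ
  have hMpos : (0 : ℝ) < M := by exact_mod_cast Nat.pos_of_ne_zero (NeZero.ne M)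
  have hM1 : (1 : ℝ) ≤ M := by exact_mod_cast Nat.one_le_iff_ne_zero.2 (NeZero.ne M)
  have hcs0 : 0 ≤ cs := le_trans zero_le_one hcs
  have hC0 : 0 ≤ C := le_trans zero_le_one hC1
  -- the symbols
  obtain ⟨s, hs⟩ : ∃ s : Tor d M → ℝ, s = sy0 cs w J := ⟨_, rfl⟩
  obtain ⟨q, hq⟩ : ∃ q : Tor d M → ℝ, q = fun p => if p ∈ low d M J then 1 else 0 := ⟨_, rfl⟩
  rw [← hs] at hS
  rw [← hq] at hPl
  have hse : ∀ p, s (-p) = s p := fun p => by rw [hs]; exact sy0_neg cs w J p
  have hqe : ∀ p, q (-p) = q p := fun p => by rw [hq]; simp only [low_neg]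
  have hs0 : ∀ p, 0 ≤ s p := fun p => by rw [hs]; exact sy0_nonneg hcs0 hw J p
  obtain ⟨a1, a2, a3, -, -, a6, a7, a8, -, -, -⟩ := hfmu d M s q hse hqe
  obtain ⟨-, b2, b3, -, -, -, b7, b8, -, -, -⟩ := hfmu d M q q hqe hqe
  obtain ⟨c1, -⟩ := hfmu d M (fun _ : Tor d M => (1 : ℝ)) s (fun _ => rfl) hse
  have hpmle : ∀ (F G : Tor d M → ℝ), (∀ p, F p ≤ G p) → pm F ≤ pm G := by
    intro F G h
    unfold pm
    gcongr with p _
    exact h p
  refine ⟨⟨?_, ?_, ?_, ?_⟩, ⟨?_, ?_, ?_, ?_, ?_⟩, ?_⟩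
  · intro a b
    rw [hS]
    exact a2 a b
  · intro f
    rw [hS, a1]
    unfold pm
    apply div_nonneg _ (by positivity)
    exact Finset.sum_nonneg fun p _ => mul_nonneg (hs0 p) (sq_nonneg _)
  · intro a
    rw [hS, a7, hs]
    unfold sy0
    rw [if_neg (fun h => h.2 rfl)]
  · intro a
    rw [hS, a8]
    -- the mean of the symbol
    have e1 : ∑ p, s p = ∑ p ∈ (low d M J).filter (fun p => p ≠ 0), cs * (1 / w + w / ds p) := by
      rw [hs]
      unfold sy0
      rw [← Finset.sum_filter]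
      apply Finset.sum_congr _ (fun _ _ => rfl)
      ext p
      simp only [Finset.mem_filter, Finset.mem_univ, true_and]
    have e2 : ∑ p ∈ (low d M J).filter (fun p => p ≠ 0), cs * (1 / w + w / ds p) =
        cs * ((((low d M J).filter (fun p => p ≠ 0)).card : ℝ) / w +
          w * ∑ p ∈ (low d M J).filter (fun p => p ≠ 0), 1 / ds p) := by
      rw [← Finset.mul_sum, Finset.sum_add_distrib, Finset.sum_const, Finset.mul_sum,
        nsmul_eq_mul]
      congr 2
      · ring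
      · apply Finset.sum_congr rfl
        intro p _
        ring
    have e3 : (((low d M J).filter (fun p => p ≠ 0)).card : ℝ) ≤ C * (J : ℝ) ^ d := by
      refine le_trans ?_ hcard
      exact_mod_cast Finset.card_filter_le _ _
    have e4 : w * pm s ≤ cs * (C * (J : ℝ) ^ d + w ^ 2 * (C * (M : ℝ) ^ 2 * (J : ℝ) ^ (d - 2))) /
        (M : ℝ) ^ d := by
      unfold pm
      rw [e1, e2, mul_div_assoc']
      apply div_le_div_of_nonneg_right _ (by positivity)
      have e5 : w * (cs * ((((low d M J).filter (fun p => p ≠ 0)).card : ℝ) / w +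
          w * ∑ p ∈ (low d M J).filter (fun p => p ≠ 0), 1 / ds p)) =
          cs * ((((low d M J).filter (fun p => p ≠ 0)).card : ℝ) +
          w ^ 2 * ∑ p ∈ (low d M J).filter (fun p => p ≠ 0), 1 / ds p) := by
        field_simp
      rw [e5]
      apply mul_le_mul_of_nonneg_left _ hcs0
      apply add_le_add e3
      exact mul_le_mul_of_nonneg_left hsum (by positivity)
    refine le_trans e4 (le_of_eq ?_)
    obtain ⟨n, rfl⟩ : ∃ n, d = n + 2 := ⟨d - 2, by omega⟩
    rw [Nat.add_sub_cancel, div_pow, div_pow, pow_add (M : ℝ) n 2, pow_add (J : ℝ) n 2]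
    field_simp
  · intro a b
    rw [hPl]
    exact b2 a b
  · rw [hPl, b3]
    congr 1
    rw [hq]
    funext p
    by_cases h : p ∈ low d M J
    · simp only [h, if_true, mul_one]
    · simp only [h, if_false, mul_zero]
  · intro a
    rw [hPl, b8, hq]
    unfold pm
    rw [← Finset.sum_filter, Finset.sum_const, nsmul_eq_mul, mul_one,
      Finset.filter_mem_eq_inter, Finset.univ_inter, div_pow, mul_div_assoc']
    exact div_le_div_of_nonneg_right hcard (by positivity)
  · intro a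
    rw [hPl, b7, hq]
    simp only [zero_mem_low, if_true]
  · rw [hS, hPl, a3]
    congr 1
    rw [hs, hq]
    funext p
    unfold sy0
    by_cases h : p ∈ low d M J
    · simp only [h, if_true, mul_one]
    · simp only [h, false_and, if_false, mul_zero]
  · intro f
    have hb : ∀ p, s p ≤ 2 * cs / w * (M : ℝ) ^ 2 := by
      intro p
      rw [hs]
      unfold sy0
      split_ifs with h
      · have h1 := (hds p).1
        have h2 := one_le_sum h.2
        have h3 : 16 / (M : ℝ) ^ 2 ≤ ds p := by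
          calc 16 / (M : ℝ) ^ 2 = 16 / (M : ℝ) ^ 2 * 1 := (mul_one _).symm
            _ ≤ 16 / (M : ℝ) ^ 2 * ∑ i, ((p i).valMinAbs : ℝ) ^ 2 := by gcongr
            _ ≤ ds p := h1
        have h4 : w / ds p ≤ (M : ℝ) ^ 2 / w := by
          have h5 : 0 < ds p := lt_of_lt_of_le (by positivity) h3
          rw [div_le_div_iff₀ h5 hw]
          have h6 : (1 : ℝ) ≤ (M : ℝ) ^ 2 * ds p := by
            have h7 : 16 ≤ (M : ℝ) ^ 2 * ds p := by
              have := mul_le_mul_of_nonneg_left h3 (by positivity : (0 : ℝ) ≤ (M : ℝ) ^ 2)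
              rwa [mul_div_cancel₀ _ (by positivity)] at this
            linarith
          nlinarith
        have h8 : 1 / w ≤ (M : ℝ) ^ 2 / w := by
          gcongr
          nlinarith
        calc cs * (1 / w + w / ds p) ≤ cs * ((M : ℝ) ^ 2 / w + (M : ℝ) ^ 2 / w) := by gcongr
          _ = 2 * cs / w * (M : ℝ) ^ 2 := by ring
      · positivity
    have h1 : ∑ a, f a ^ 2 = pm fun p => ‖ft (fun x => (f x : ℂ)) p‖ ^ 2 := by
      rw [← qf_one, ← a6, c1]
      congr 1
      funext p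
      rw [one_mul]
    rw [hS, a1, h1]
    have h2 : 2 * cs / w * (M : ℝ) ^ 2 * pm (fun p => ‖ft (fun x => (f x : ℂ)) p‖ ^ 2) =
        pm fun p => 2 * cs / w * (M : ℝ) ^ 2 * ‖ft (fun x => (f x : ℂ)) p‖ ^ 2 := by
      unfold pm
      rw [mul_div_assoc', Finset.mul_sum]
    rw [h2]
    apply hpmle
    intro p
    exact mul_le_mul_of_nonneg_right (hb p) (sq_nonneg _)

end Pool.Agent.LE.QF.H49
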